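import Pool.Agent.H568.LB.Stm

/-! LB-SRT (for helper568): the prime factors in decreasing order. -/

set_option autoImplicit false

open Finset Filter Topology Pool.Agent.N792 Pool.Agent.N791.U Pool.Agent.N792.RX5 Pool.Agent.H568 Pool.Agent.H568.LB

namespace Pool.Agent.H909.LB

/-- the pairs of entries of a strictly decreasing list -/
lemma cnt (r : ℕ → ℕ → Prop) [hr : ∀ a b, Decidable (r a b)] (L : List ℕ)
    (hL : L.Pairwise (· > ·)) :
    #((L.toFinset ×ˢ L.toFinset).filter (fun t => t.1 < t.2 ∧ r t.1 t.2)) =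
      ps2 (fun q p => if r q p then 1 else 0) L := by
  induction L with
  | nil => rfl
  | cons x xs ih =>
    rw [List.pairwise_cons] at hL
    obtain ⟨h1, h2⟩ := hL
    have ih' := ih h2
    have hx : x ∉ xs.toFinset := by
      intro h
      exact lt_irrefl x (h1 x (List.mem_toFinset.1 h))
    have hlt : ∀ a ∈ xs.toFinset, a < x := fun a ha => h1 a (List.mem_toFinset.1 ha)
    rw [Finset.card_filter, Finset.sum_product] at ih'
    have hnd : xs.Nodup := h2.imp (fun h => ne_of_gt h)
    rw [Finset.card_filter, Finset.sum_product, List.toFinset_cons, Finset.sum_insert hx]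
    have e1 : ∑ b ∈ insert x xs.toFinset, (if x < b ∧ r x b then 1 else 0) = 0 := by
      refine Finset.sum_eq_zero fun b hb => ?_
      rcases Finset.mem_insert.1 hb with rfl | hb
      · rw [if_neg]
        exact fun h => lt_irrefl _ h.1
      · rw [if_neg]
        exact fun h => lt_asymm h.1 (hlt b hb)
    have e2 : ∑ a ∈ xs.toFinset, ∑ b ∈ insert x xs.toFinset, (if a < b ∧ r a b then 1 else 0) =
        (xs.map (fun y => if r y x then 1 else 0)).sum +
          ∑ a ∈ xs.toFinset, ∑ b ∈ xs.toFinset, (if a < b ∧ r a b then 1 else 0) := by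
      rw [← List.sum_toFinset (fun y => if r y x then 1 else 0) hnd, ← Finset.sum_add_distrib]
      refine Finset.sum_congr rfl fun a ha => ?_
      rw [Finset.sum_insert hx]
      have e3 : (if a < x ∧ r a x then 1 else 0) = (if r a x then 1 else 0 : ℕ) := by
        by_cases h : r a x
        · rw [if_pos h, if_pos ⟨hlt a ha, h⟩]
        · rw [if_neg h, if_neg (fun h' => h h'.2)]
      rw [e3]
    show (∑ b ∈ insert x xs.toFinset, (if x < b ∧ r x b then 1 else 0)) +
      ∑ a ∈ xs.toFinset, ∑ b ∈ insert x xs.toFinset, (if a < b ∧ r a b then 1 else 0) =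
      (xs.map (fun y => if r y x then 1 else 0)).sum + ps2 (fun q p => if r q p then 1 else 0) xs
    rw [e1, e2, zero_add, ← ih']

theorem t_SRT : S_SRT := by
  intro N hs hN1
  set L : List ℕ := N.primeFactors.sort (· ≥ ·) with hLdef
  have hpw : L.Pairwise (· > ·) := (Finset.sortedGT_sort N.primeFactors).pairwise
  have hfin : L.toFinset = N.primeFactors := Finset.sort_toFinset _ _
  have hmem : ∀ p, p ∈ L ↔ p ∈ N.primeFactors := fun p => Finset.mem_sort _
  have hnd : L.Nodup := Finset.sort_nodup _ _
  have hprod : L.prod = N := by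
    have h := List.prod_toFinset (fun p : ℕ => p) hnd
    rw [hfin, List.map_id'] at h
    rw [← h]
    exact Nat.prod_primeFactors_of_squarefree hs
  have hne : L ≠ [] := by
    intro h
    rw [h] at hprod
    exact hN1 hprod.symm
  obtain ⟨P, t, hPt⟩ := List.exists_cons_of_ne_nil hne
  refine ⟨P, t, ?_, ?_, ?_, ?_, ?_, ?_, ?_⟩
  · rw [← hPt]
    exact hpw
  · intro p hp
    rw [← hPt, hmem] at hp
    exact Nat.prime_of_mem_primeFactors hp
  · rw [← List.prod_cons, ← hPt]
    exact hprod.symm
  · have h : L.length = #N.primeFactors := Finset.length_sort _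
    rw [hPt, List.length_cons] at h
    exact h
  · intro p
    rw [← hPt]
    exact hmem p
  · intro U V
    rw [← hPt, ← cnt (fun q p => q * p ≤ U ∧ V < q * q * p) L hpw, hfin]
    rfl
  · intro U
    rw [← hPt, ← cnt (fun q p => q * p ≤ U) L hpw, hfin]
    rfl

end Pool.Agent.H909.LB
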